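import Pool.Agent.V11235.TruthTree

/-!
Letter-sharing for acceptable formulae.
-/

namespace Pool.Agent.Results.MP_d84959_lc.LetterSharing

open Pool.Agent.V11235.TruthTree

/-- The sentence letters of a formula. -/
def letters : Fm → Set ℕ
  | .var n => {n}
  | .neg a => letters a
  | .and a b => letters a ∪ letters b
  | .or a b => letters a ∪ letters b
  | .imp a b => letters a ∪ letters b

theorem ev_const (v : ℕ → Fin 6) (x : Fin 6) (hneg : vneg x = x) (hand : vand x x = x)
    (hor : vor x x = x) (himp : vimp x x = x) (a : Fm) (h : ∀ n ∈ letters a, v n = x) :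
    ev v a = x := by
  induction a with
  | var n => exact h n rfl
  | neg a ih => rw [ev, ih h, hneg]
  | and a b iha ihb =>
    rw [ev, iha fun n hn => h n (Or.inl hn), ihb fun n hn => h n (Or.inr hn), hand]
  | or a b iha ihb =>
    rw [ev, iha fun n hn => h n (Or.inl hn), ihb fun n hn => h n (Or.inr hn), hor]
  | imp a b iha ihb =>
    rw [ev, iha fun n hn => h n (Or.inl hn), ihb fun n hn => h n (Or.inr hn), himp]

open Classical in
/-- If `φ → ψ` is acceptable then `φ` and `ψ` have a sentence letter in common. -/
theorem result : ∀ φ ψ : Fm, Fm.imp φ ψ ∈ Acceptable CrashesOneWay → ∃ n, n ∈ letters φ ∧ n ∈ letters ψ := by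
  intro φ ψ h
  by_contra hcon
  push Not at hcon
  refine acceptableOneWay_valid h (fun n => if n ∈ letters φ then 2 else 3) ?_
  have h1 : ev (fun n => if n ∈ letters φ then 2 else 3) φ = 2 :=
    ev_const _ 2 (by decide) (by decide) (by decide) (by decide) φ fun n hn => if_pos hn
  have h2 : ev (fun n => if n ∈ letters φ then 2 else 3) ψ = 3 :=
    ev_const _ 3 (by decide) (by decide) (by decide) (by decide) ψ fun n hn =>
      if_neg fun h => hcon n h hn
  rw [ev, h1, h2]
  decide

end Pool.Agent.Results.MP_d84959_lc.LetterSharing
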